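import Pool.Agent.R788.HE.Sphere

/-!
# Hyperelliptic involutions
-/

set_option autoImplicit false

open Topology Filter
open scoped Manifold OnePoint

namespace Pool.Agent.R788.HE

universe v

section Defs

variable {R : Type v} [TopologicalSpace R] [ChartedSpace ℂ R]

/-- `f` is a holomorphic map to the Riemann sphere: it is continuous, and it is holomorphic in the
coordinate `w` where it is finite and in the coordinate `1/w` where it is not zero. -/
structure IsHolo (f : R → OnePoint ℂ) : Prop where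
  cont : Continuous f
  fin : ∀ x, f x ≠ ∞ → MDifferentiableAt 𝓘(ℂ) 𝓘(ℂ) (fun y => toC (f y)) x
  inf : ∀ x, f x ≠ ((0 : ℂ) : OnePoint ℂ) →
    MDifferentiableAt 𝓘(ℂ) 𝓘(ℂ) (fun y => (toC (f y))⁻¹) x

/-- `τ` is a conformal automorphism. -/
def IsAut (τ : R ≃ₜ R) : Prop :=
  MDifferentiable 𝓘(ℂ) 𝓘(ℂ) τ ∧ MDifferentiable 𝓘(ℂ) 𝓘(ℂ) τ.symm

/-- `f` is a holomorphic branched covering of degree two of the complement of `B'`, the set of the
accumulation points of `B`, with set of branch values `B`: it is a holomorphic map to the sphere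
with values in the complement of `B'`, proper as a map to that complement, and the fibre of a
point of the complement has one point if the point is in `B` and two points if it is not. -/
structure IsDoubleCover (f : R → OnePoint ℂ) (B : Set (OnePoint ℂ)) : Prop where
  holo : IsHolo f
  mem : ∀ x, f x ∉ derivedSet B
  proper : ∀ K : Set (OnePoint ℂ), IsCompact K → K ⊆ (derivedSet B)ᶜ → IsCompact (f ⁻¹' K)
  branch : ∀ w ∉ derivedSet B, w ∈ B → (f ⁻¹' {w}).ncard = 1
  nonbranch : ∀ w ∉ derivedSet B, w ∉ B → (f ⁻¹' {w}).ncard = 2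

/-- `τ` is a hyperelliptic involution with branch locus `B`: here `B` is an infinite discrete
subset of the sphere whose set of accumulation points has connected complement, and `τ` is a
conformal automorphism different from the identity that is a deck transformation of a holomorphic
branched covering of degree two as above. -/
structure IsHypInv (τ : R ≃ₜ R) (B : Set (OnePoint ℂ)) : Prop where
  infinite : B.Infinite
  discrete : ∀ w ∈ B, w ∉ derivedSet B
  connected : IsConnected (derivedSet B)ᶜ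
  aut : IsAut τ
  ne_one : τ ≠ Homeomorph.refl R
  deck : ∃ f : R → OnePoint ℂ, IsDoubleCover f B ∧ ∀ x, f (τ x) = f x

end Defs

section Basic

variable {R : Type v} [TopologicalSpace R] [ChartedSpace ℂ R]

theorem IsHolo.hn {f : R → OnePoint ℂ} (hf : IsHolo f) {q : OnePoint ℂ} {x : R}
    (hx : f x ≠ pole q) : HN (fun y => crd q (f y)) x := by
  have h1 : ∀ᶠ y in 𝓝 x, f y ≠ pole q := hf.cont.continuousAt.eventually (ev_ne _ _ hx)
  induction q using OnePoint.rec with
  | infty =>
    filter_upwards [h1] with y hy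
    exact hf.inf y hy
  | coe z =>
    filter_upwards [h1] with y hy
    exact (hf.fin y hy).sub mdifferentiableAt_const

theorem IsHolo.par_crd_ev {f : R → OnePoint ℂ} (hf : IsHolo f) {q : OnePoint ℂ} {x : R}
    (hx : f x ≠ pole q) : ∀ᶠ y in 𝓝 x, par q (crd q (f y)) = f y := by
  filter_upwards [hf.cont.continuousAt.eventually (ev_ne _ _ hx)] with y hy
  exact par_crd hy

/-- Composition with a holomorphic self-map. -/
theorem IsHolo.comp {f : R → OnePoint ℂ} (hf : IsHolo f) {τ : R → R} (hc : Continuous τ)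
    (hτ : MDifferentiable 𝓘(ℂ) 𝓘(ℂ) τ) : IsHolo fun y => f (τ y) :=
  ⟨hf.cont.comp hc,
    fun x hx => MDifferentiableAt.comp (I' := 𝓘(ℂ)) (g := fun y => toC (f y)) (f := τ) x
      (hf.fin (τ x) hx) (hτ x),
    fun x hx => MDifferentiableAt.comp (I' := 𝓘(ℂ)) (g := fun y => (toC (f y))⁻¹) (f := τ) x
      (hf.inf (τ x) hx) (hτ x)⟩

/-- A function with finite fibres is not constant near a point. -/
theorem not_ev_const [T1Space R] {f : R → OnePoint ℂ} {x : R} (hfin : (f ⁻¹' {f x}).Finite) :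
    ¬ ∀ᶠ y in 𝓝 x, f y = f x := by
  intro h
  have h1 : ∀ᶠ y in 𝓝[≠] x, y ∉ (f ⁻¹' {f x}) := by
    rw [eventually_nhdsWithin_iff]
    have h2 : ((f ⁻¹' {f x}) \ {x})ᶜ ∈ 𝓝 x :=
      (hfin.subset Set.sdiff_subset).isClosed.isOpen_compl.mem_nhds (by
        intro h3
        exact h3.2 rfl)
    filter_upwards [h2] with y hy hyx hy2
    exact hy ⟨hy2, hyx⟩
  have h3 : ∀ᶠ y in 𝓝[≠] x, f y = f x := h.filter_mono nhdsWithin_le_nhds
  have := neBot_punctured x
  obtain ⟨y, hy1, hy2⟩ := (h1.and h3).exists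
  exact hy1 hy2

theorem not_ev_const_crd [T1Space R] {f : R → OnePoint ℂ} (hf : IsHolo f) {q : OnePoint ℂ} {x : R}
    (hx : f x ≠ pole q) (hfin : (f ⁻¹' {f x}).Finite) :
    ¬ ∀ᶠ y in 𝓝 x, crd q (f y) = crd q (f x) := by
  intro h
  apply not_ev_const hfin
  filter_upwards [h, hf.par_crd_ev hx] with y hy1 hy2
  rw [← hy2, hy1, par_crd hx]

variable [IsManifold 𝓘(ℂ) 1 R]

/-- The open mapping theorem. -/
theorem IsHolo.isOpen [T1Space R] {f : R → OnePoint ℂ} (hf : IsHolo f) {x : R}
    (hfin : (f ⁻¹' {f x}).Finite) : 𝓝 (f x) ≤ map f (𝓝 x) := by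
  have hx := ne_pole (f x)
  have h1 := (hf.hn hx).isOpen (not_ev_const_crd hf hx hfin)
  rw [crd_self] at h1
  have h2 : (fun y => par (f x) (crd (f x) (f y))) =ᶠ[𝓝 x] f := hf.par_crd_ev hx
  calc 𝓝 (f x) ≤ map (par (f x)) (𝓝 0) := nhds_le_map_par (f x)
    _ ≤ map (par (f x)) (map (fun y => crd (f x) (f y)) (𝓝 x)) := map_mono h1
    _ = map f (𝓝 x) := by
      rw [map_map]
      exact map_congr h2

/-- The identity theorem for maps to the sphere. -/
theorem IsHolo.identity [PreconnectedSpace R] {f g : R → OnePoint ℂ} (hf : IsHolo f)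
    (hg : IsHolo g) {x₀ : R} (h : ∀ᶠ y in 𝓝 x₀, f y = g y) (x : R) : f x = g x := by
  have hopen : IsOpen {x | ∀ᶠ y in 𝓝 x, f y = g y} := isOpen_setOfPred_eventually_nhds
  have hclosed : IsClosed {x | ∀ᶠ y in 𝓝 x, f y = g y} := by
    rw [isClosed_iff_frequently]
    intro x hx
    have hfg : f x = g x := by
      have h1 : ∃ᶠ y in 𝓝 x, f y = g y := hx.mono fun y hy => hy.self_of_nhds
      exact (isClosed_eq hf.cont hg.cont).mem_of_frequently_of_tendsto h1 tendsto_id
    have hfx : f x ≠ pole (f x) := ne_pole _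
    have hgx : g x ≠ pole (f x) := by rw [← hfg]; exact ne_pole _
    have hu : HN (fun y => crd (f x) (f y) - crd (f x) (g y)) x := (hf.hn hfx).sub (hg.hn hgx)
    rcases hu.dichotomy with h1 | h1
    · change ∀ᶠ y in 𝓝 x, f y = g y
      filter_upwards [h1, hf.par_crd_ev hfx, hg.par_crd_ev hgx] with y hy1 hy2 hy3
      rw [← hy2, ← hy3, sub_eq_zero.1 hy1]
    · rw [eventually_nhdsWithin_iff] at h1
      obtain ⟨y, hy1, hy2⟩ := (hx.and_eventually h1).exists
      by_cases hyx : y = x
      · rw [← hyx]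
        exact hy1
      · exfalso
        have h3 : f y = g y := Eventually.self_of_nhds (p := fun y => f y = g y) hy1
        exact hy2 hyx (by rw [h3, sub_self])
  have h1 := IsClopen.eq_univ (s := {x | ∀ᶠ y in 𝓝 x, f y = g y}) ⟨hclosed, hopen⟩ ⟨x₀, h⟩
  have h2 : x ∈ {x | ∀ᶠ y in 𝓝 x, f y = g y} := by rw [h1]; exact Set.mem_univ x
  exact Eventually.self_of_nhds (p := fun y => f y = g y) h2

/-- The identity theorem for self-maps: a holomorphic self-map that is the identity near a point is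
the identity. -/
theorem self_identity [PreconnectedSpace R] [T2Space R] {τ : R → R} (hc : Continuous τ)
    (hτ : MDifferentiable 𝓘(ℂ) 𝓘(ℂ) τ) {x₀ : R} (h : ∀ᶠ y in 𝓝 x₀, τ y = y) (x : R) :
    τ x = x := by
  have hopen : IsOpen {x | ∀ᶠ y in 𝓝 x, τ y = y} := isOpen_setOfPred_eventually_nhds
  have hclosed : IsClosed {x | ∀ᶠ y in 𝓝 x, τ y = y} := by
    rw [isClosed_iff_frequently]
    intro x hx
    have hfx : τ x = x := by
      have h1 : ∃ᶠ y in 𝓝 x, τ y = y := hx.mono fun y hy => hy.self_of_nhds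
      exact (isClosed_eq hc continuous_id).mem_of_frequently_of_tendsto h1 tendsto_id
    have hchart : HN (chartAt ℂ x) x := by
      filter_upwards [(chartAt ℂ x).open_source.mem_nhds (mem_chart_source ℂ x)] with y hy
      exact mdifferentiableAt_atlas (chart_mem_atlas ℂ x) hy
    have hu : HN (fun y => chartAt ℂ x (τ y) - chartAt ℂ x y) x := by
      refine HN.sub (HN.comp_right ?_ hc hτ) hchart
      rw [hfx]
      exact hchart
    have hs : ∀ᶠ y in 𝓝 x, y ∈ (chartAt ℂ x).source ∧ τ y ∈ (chartAt ℂ x).source := by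
      have h1 : ∀ᶠ y in 𝓝 x, y ∈ (chartAt ℂ x).source :=
        (chartAt ℂ x).open_source.mem_nhds (mem_chart_source ℂ x)
      refine h1.and ?_
      refine hc.continuousAt.eventually ?_
      rw [hfx]
      exact h1
    rcases hu.dichotomy with h1 | h1
    · change ∀ᶠ y in 𝓝 x, τ y = y
      filter_upwards [h1, hs] with y hy1 hy2
      exact (chartAt ℂ x).injOn hy2.2 hy2.1 (sub_eq_zero.1 hy1)
    · rw [eventually_nhdsWithin_iff] at h1
      obtain ⟨y, hy1, hy2⟩ := (hx.and_eventually h1).exists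
      by_cases hyx : y = x
      · rw [← hyx]
        exact hy1
      · exfalso
        have h3 : τ y = y := Eventually.self_of_nhds (p := fun y => τ y = y) hy1
        exact hy2 hyx (by rw [h3, sub_self])
  have h1 := IsClopen.eq_univ (s := {x | ∀ᶠ y in 𝓝 x, τ y = y}) ⟨hclosed, hopen⟩ ⟨x₀, h⟩
  have h2 : x ∈ {x | ∀ᶠ y in 𝓝 x, τ y = y} := by rw [h1]; exact Set.mem_univ x
  exact Eventually.self_of_nhds (p := fun y => τ y = y) h2

omit [IsManifold 𝓘(ℂ) 1 R] in
theorem IsDoubleCover.finite {f : R → OnePoint ℂ} {B : Set (OnePoint ℂ)} (hf : IsDoubleCover f B)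
    {w : OnePoint ℂ} (hw : w ∉ derivedSet B) : (f ⁻¹' {w}).Finite := by
  by_cases hB : w ∈ B
  · exact Set.finite_of_ncard_ne_zero (by rw [hf.branch w hw hB]; norm_num)
  · exact Set.finite_of_ncard_ne_zero (by rw [hf.nonbranch w hw hB]; norm_num)

omit [IsManifold 𝓘(ℂ) 1 R] in
theorem IsDoubleCover.ncard_le {f : R → OnePoint ℂ} {B : Set (OnePoint ℂ)}
    (hf : IsDoubleCover f B) {w : OnePoint ℂ} (hw : w ∉ derivedSet B) :
    (f ⁻¹' {w}).ncard ≤ 2 := by
  by_cases hB : w ∈ B
  · rw [hf.branch w hw hB]; norm_num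
  · rw [hf.nonbranch w hw hB]

omit [IsManifold 𝓘(ℂ) 1 R] in
theorem IsDoubleCover.exists_eq {f : R → OnePoint ℂ} {B : Set (OnePoint ℂ)}
    (hf : IsDoubleCover f B) {w : OnePoint ℂ} (hw : w ∉ derivedSet B) : ∃ x, f x = w := by
  have h : (f ⁻¹' {w}).ncard ≠ 0 := by
    by_cases hB : w ∈ B
    · rw [hf.branch w hw hB]; norm_num
    · rw [hf.nonbranch w hw hB]; norm_num
  obtain ⟨x, hx⟩ := Set.nonempty_of_ncard_ne_zero h
  exact ⟨x, hx⟩

omit [IsManifold 𝓘(ℂ) 1 R] in
/-- Three points of a fibre are not distinct. -/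
theorem IsDoubleCover.three {f : R → OnePoint ℂ} {B : Set (OnePoint ℂ)} (hf : IsDoubleCover f B)
    {x y z : R} (hy : f y = f x) (hz : f z = f x) : x = y ∨ x = z ∨ y = z := by
  by_contra hc
  push Not at hc
  obtain ⟨h1, h2, h3⟩ := hc
  have h4 : ({x, y, z} : Set R) ⊆ f ⁻¹' {f x} := by
    rintro t (rfl | rfl | rfl)
    · rfl
    · exact hy
    · exact hz
  have h5 : ({x, y, z} : Set R).ncard = 3 := Set.ncard_eq_three.2 ⟨x, y, z, h1, h2, h3, rfl⟩
  have h6 := Set.ncard_le_ncard h4 (hf.finite (hf.mem x))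
  have h7 := hf.ncard_le (hf.mem x)
  omega

/-- A deck transformation different from the identity exchanges the two points of a fibre. -/
theorem IsDoubleCover.swap [PreconnectedSpace R] [T2Space R] {f : R → OnePoint ℂ}
    {B : Set (OnePoint ℂ)} (hf : IsDoubleCover f B) {τ : R ≃ₜ R} (haut : IsAut τ)
    (hne : τ ≠ Homeomorph.refl R) (hdeck : ∀ x, f (τ x) = f x) {x y : R} (hxy : f y = f x) :
    y = x ∨ y = τ x := by
  rcases hf.three (hdeck x) hxy with h | h | h
  · -- `x` is fixed
    by_contra hc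
    push Not at hc
    apply hne
    have hτx : τ x = x := h.symm
    have key : ∀ᶠ z in 𝓝 x, τ z = z := by
      obtain ⟨N, N', hN, hN', hx, hy, hd⟩ := t2_separation hc.1.symm
      have h1 : f '' N' ∈ 𝓝 (f y) := by
        have h2 := hf.holo.isOpen (x := y) (hf.finite (hf.mem y))
        exact h2 (image_mem_map (hN'.mem_nhds hy))
      rw [hxy] at h1
      have h3 : ∀ᶠ z in 𝓝 x, f z ∈ f '' N' := hf.holo.cont.continuousAt.eventually h1
      have h4 : ∀ᶠ z in 𝓝 x, z ∈ N := hN.mem_nhds hx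
      have h5 : ∀ᶠ z in 𝓝 x, τ z ∈ N := by
        refine τ.continuous.continuousAt.eventually ?_
        rw [hτx]
        exact h4
      filter_upwards [h3, h4, h5] with z hz3 hz4 hz5
      obtain ⟨z', hz', hz''⟩ := hz3
      rcases hf.three (hdeck z) hz'' with h6 | h6 | h6
      · exact h6.symm
      · exfalso
        exact Set.disjoint_left.1 hd hz4 (by rw [h6]; exact hz')
      · exfalso
        exact Set.disjoint_left.1 hd hz5 (by rw [h6]; exact hz')
    ext z
    exact self_identity τ.continuous haut.1 key z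
  · exact Or.inl h.symm
  · exact Or.inr h.symm

theorem IsDoubleCover.invol [PreconnectedSpace R] [T2Space R] {f : R → OnePoint ℂ}
    {B : Set (OnePoint ℂ)} (hf : IsDoubleCover f B) {τ : R ≃ₜ R} (haut : IsAut τ)
    (hne : τ ≠ Homeomorph.refl R) (hdeck : ∀ x, f (τ x) = f x) (x : R) : τ (τ x) = x := by
  have h1 : f (τ (τ x)) = f x := by rw [hdeck, hdeck]
  rcases hf.swap haut hne hdeck h1 with h | h
  · exact h
  · have h2 : τ x = x := τ.injective h
    rw [h2, h2]

omit [IsManifold 𝓘(ℂ) 1 R] in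
theorem IsDoubleCover.fixed {f : R → OnePoint ℂ}
    {B : Set (OnePoint ℂ)} (hf : IsDoubleCover f B) {τ : R ≃ₜ R}
    (hdeck : ∀ x, f (τ x) = f x) {x : R} (hx : f x ∈ B) : τ x = x := by
  have h1 := hf.branch (f x) (hf.mem x) hx
  obtain ⟨a, ha⟩ := Set.ncard_eq_one.1 h1
  have h2 : x ∈ f ⁻¹' {f x} := rfl
  have h3 : τ x ∈ f ⁻¹' {f x} := hdeck x
  rw [ha] at h2 h3
  rw [Set.mem_singleton_iff] at h2 h3
  rw [h3, h2]

/-- Two deck transformations of the same double cover, both different from the identity, agree. -/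
theorem IsDoubleCover.deck_unique [PreconnectedSpace R] [T2Space R] {f : R → OnePoint ℂ}
    {B : Set (OnePoint ℂ)} (hf : IsDoubleCover f B) {τ σ : R ≃ₜ R} (haut : IsAut τ)
    (hne : τ ≠ Homeomorph.refl R) (hdeck : ∀ x, f (τ x) = f x) (haut' : IsAut σ)
    (hne' : σ ≠ Homeomorph.refl R) (hdeck' : ∀ x, f (σ x) = f x) : τ = σ := by
  ext x
  rcases hf.swap haut hne hdeck (hdeck' x) with h | h
  · rcases hf.swap haut' hne' hdeck' (hdeck x) with h1 | h1
    · rw [h1, h]
    · exact h1
  · exact h.symm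

end Basic

end Pool.Agent.R788.HE
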