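import Mathlib

/-!
# Local theory of holomorphic functions on Riemann surfaces
-/

set_option autoImplicit false

open Topology Filter
open scoped Manifold

namespace Pool.Agent.R788.HE

/-! ### One variable -/

theorem descend_aux {u k D : ℂ → ℂ} {t₀ : ℂ} (hu : AnalyticAt ℂ u t₀) (hk : AnalyticAt ℂ k t₀)
    (hnc : ¬ ∀ᶠ t in 𝓝 t₀, u t = u t₀) (hD : ∀ᶠ t in 𝓝 t₀, D (u t) = k t) :
    AnalyticAt ℂ D (u t₀) := by
  have hopen : 𝓝 (u t₀) ≤ map u (𝓝 t₀) :=
    hu.eventually_constant_or_nhds_le_map_nhds.resolve_left hnc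
  have hder : ∀ᶠ t in 𝓝[≠] t₀, deriv u t ≠ 0 := by
    rcases hu.deriv.eventually_eq_zero_or_eventually_ne_zero with h | h
    · exfalso
      apply hnc
      obtain ⟨r, hr, hball⟩ := Metric.eventually_nhds_iff_ball.1 (h.and hu.eventually_analyticAt)
      filter_upwards [Metric.ball_mem_nhds t₀ hr] with t ht
      refine Metric.isOpen_ball.is_const_of_deriv_eq_zero (convex_ball t₀ r).isPreconnected
        (fun y hy => (hball y hy).2.differentiableAt.differentiableWithinAt)
        (fun y hy => (hball y hy).1) ht (Metric.mem_ball_self hr)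
    · exact h
  have hdiff : ∀ᶠ t in 𝓝[≠] t₀, DifferentiableAt ℂ D (u t) := by
    filter_upwards [hder, hu.eventually_analyticAt.filter_mono nhdsWithin_le_nhds,
      hk.eventually_analyticAt.filter_mono nhdsWithin_le_nhds,
      hD.eventually_nhds.filter_mono nhdsWithin_le_nhds] with t ht1 ht2 ht3 ht4
    have hs := ht2.hasStrictDerivAt
    obtain ⟨ι, hι⟩ : ∃ ι, ι = hs.localInverse u _ t ht1 := ⟨_, rfl⟩
    have h1 : HasStrictDerivAt ι (deriv u t)⁻¹ (u t) := by
      rw [hι]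
      exact hs.to_localInverse ht1
    have h2 : ∀ᶠ x in 𝓝 (u t), u (ι x) = x := by
      rw [hι]
      exact hs.eventually_right_inverse ht1
    have h3 : ι (u t) = t := by
      rw [hι]
      exact (hs.hasStrictFDerivAt_equiv ht1).localInverse_apply_image
    have h4 : Tendsto ι (𝓝 (u t)) (𝓝 t) := by
      have := h1.hasDerivAt.continuousAt
      rwa [ContinuousAt, h3] at this
    have h5 : D =ᶠ[𝓝 (u t)] k ∘ ι := by
      filter_upwards [h2, h4.eventually ht4] with x hx1 hx2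
      rw [hx1] at hx2
      exact hx2
    refine DifferentiableAt.congr_of_eventuallyEq ?_ h5
    refine DifferentiableAt.comp _ ?_ h1.hasDerivAt.differentiableAt
    rw [h3]
    exact ht3.differentiableAt
  have hpunct : ∀ᶠ w in 𝓝[≠] (u t₀), DifferentiableAt ℂ D w := by
    rw [eventually_nhdsWithin_iff] at hdiff ⊢
    refine hopen ?_
    change ∀ᶠ t in 𝓝 t₀, u t ∈ ({u t₀}ᶜ : Set ℂ) → DifferentiableAt ℂ D (u t)
    filter_upwards [hdiff] with t ht h
    refine ht fun h' => h ?_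
    rw [Set.mem_singleton_iff] at h' ⊢
    rw [h']
  have hcont : ContinuousAt D (u t₀) := by
    have h1 : Tendsto D (map u (𝓝 t₀)) (𝓝 (D (u t₀))) := by
      rw [tendsto_map'_iff]
      have h2 : D ∘ u =ᶠ[𝓝 t₀] k := hD
      have h3 : Tendsto k (𝓝 t₀) (𝓝 (D (u t₀))) := by
        have := hk.continuousAt
        rwa [ContinuousAt, ← hD.self_of_nhds] at this
      exact Tendsto.congr' h2.symm h3
    exact h1.mono_left hopen
  exact Complex.analyticAt_of_differentiable_on_punctured_nhds_of_continuousAt hpunct hcont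

/-! ### Riemann surfaces -/

section Surface

universe v

variable {R : Type v} [TopologicalSpace R] [ChartedSpace ℂ R]

/-- Holomorphic near the point `x`. -/
def HN (u : R → ℂ) (x : R) : Prop := ∀ᶠ y in 𝓝 x, MDifferentiableAt 𝓘(ℂ) 𝓘(ℂ) u y

theorem map_symm_nhds (x : R) :
    map (chartAt ℂ x).symm (𝓝 (chartAt ℂ x x)) = 𝓝 x := by
  have h := (chartAt ℂ x).symm.map_nhds_eq ((chartAt ℂ x).map_source (mem_chart_source ℂ x))
  rwa [(chartAt ℂ x).left_inv (mem_chart_source ℂ x)] at h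

theorem ev_iff {x : R} {P : R → Prop} :
    (∀ᶠ y in 𝓝 x, P y) ↔ ∀ᶠ t in 𝓝 (chartAt ℂ x x), P ((chartAt ℂ x).symm t) := by
  nth_rewrite 1 [← map_symm_nhds x]
  rw [eventually_map]

theorem symm_chart (x : R) : (chartAt ℂ x).symm (chartAt ℂ x x) = x :=
  (chartAt ℂ x).left_inv (mem_chart_source ℂ x)

theorem neBot_punctured (x : R) : (𝓝[≠] x).NeBot := by
  rw [← mem_closure_iff_nhdsWithin_neBot, mem_closure_iff_frequently]
  intro h
  rw [ev_iff] at h
  have h1 : ∀ᶠ t in 𝓝 (chartAt ℂ x x), t ∈ (chartAt ℂ x).target :=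
    (chartAt ℂ x).open_target.mem_nhds ((chartAt ℂ x).map_source (mem_chart_source ℂ x))
  have h2 : ∀ᶠ t in 𝓝 (chartAt ℂ x x), t = chartAt ℂ x x := by
    filter_upwards [h, h1] with t ht ht1
    have h3 : (chartAt ℂ x).symm t = x := by
      by_contra hc
      exact ht hc
    exact ((chartAt ℂ x).right_inv ht1).symm.trans (by rw [h3])
  have h3 : ∃ᶠ t in 𝓝[≠] (chartAt ℂ x x), t = chartAt ℂ x x :=
    (h2.filter_mono nhdsWithin_le_nhds).frequently
  have h4 : ∀ᶠ t in 𝓝[≠] (chartAt ℂ x x), t ≠ chartAt ℂ x x := eventually_mem_nhdsWithin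
  exact (h3.and_eventually h4).exists.elim fun t ht => ht.2 ht.1

variable [IsManifold 𝓘(ℂ) 1 R]

theorem HN.analytic {u : R → ℂ} {x : R} (h : HN u x) :
    AnalyticAt ℂ (u ∘ (chartAt ℂ x).symm) (chartAt ℂ x x) := by
  rw [Complex.analyticAt_iff_eventually_differentiableAt]
  have h1 : ∀ᶠ t in 𝓝 (chartAt ℂ x x), t ∈ (chartAt ℂ x).target :=
    (chartAt ℂ x).open_target.mem_nhds ((chartAt ℂ x).map_source (mem_chart_source ℂ x))
  filter_upwards [ev_iff.1 h, h1] with t ht ht1
  have h2 : MDifferentiableAt 𝓘(ℂ) 𝓘(ℂ) (chartAt ℂ x).symm t :=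
    mdifferentiableAt_atlas_symm (chart_mem_atlas ℂ x) ht1
  exact mdifferentiableAt_iff_differentiableAt.1 (MDifferentiableAt.comp t ht h2)

theorem HN.dichotomy {u : R → ℂ} {x : R} (h : HN u x) :
    (∀ᶠ y in 𝓝 x, u y = 0) ∨ ∀ᶠ y in 𝓝[≠] x, u y ≠ 0 := by
  rcases h.analytic.eventually_eq_zero_or_eventually_ne_zero with h1 | h1
  · exact Or.inl (ev_iff.2 h1)
  · right
    rw [eventually_nhdsWithin_iff] at h1 ⊢
    rw [ev_iff]
    filter_upwards [h1] with t ht h2
    refine ht fun h3 => h2 ?_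
    rw [Set.mem_singleton_iff] at h3 ⊢
    rw [h3, symm_chart]

theorem HN.isOpen {u : R → ℂ} {x : R} (h : HN u x) (hnc : ¬ ∀ᶠ y in 𝓝 x, u y = u x) :
    𝓝 (u x) ≤ map u (𝓝 x) := by
  rcases h.analytic.eventually_constant_or_nhds_le_map_nhds with h1 | h1
  · exfalso
    apply hnc
    rw [ev_iff]
    filter_upwards [h1] with t ht
    rw [Function.comp_apply, Function.comp_apply, symm_chart] at ht
    exact ht
  · rw [Function.comp_apply, symm_chart, ← map_map, map_symm_nhds] at h1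
    exact h1

theorem HN.descend {u k : R → ℂ} {D : ℂ → ℂ} {x : R} (hu : HN u x) (hk : HN k x)
    (hnc : ¬ ∀ᶠ y in 𝓝 x, u y = u x) (hD : ∀ᶠ y in 𝓝 x, D (u y) = k y) :
    AnalyticAt ℂ D (u x) := by
  have h := descend_aux (D := D) hu.analytic hk.analytic ?_ ?_
  · rwa [Function.comp_apply, symm_chart] at h
  · intro h1
    apply hnc
    rw [ev_iff]
    filter_upwards [h1] with t ht
    rw [Function.comp_apply, Function.comp_apply, symm_chart] at ht
    exact ht
  · exact ev_iff.1 hD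

omit [IsManifold 𝓘(ℂ) 1 R] in
theorem HN.congr {u w : R → ℂ} {x : R} (h : HN u x) (hw : ∀ᶠ y in 𝓝 x, w y = u y) : HN w x := by
  filter_upwards [h, hw.eventually_nhds] with y hy1 hy2
  exact hy1.congr_of_eventuallyEq hy2

omit [IsManifold 𝓘(ℂ) 1 R] in
theorem HN.sub {u w : R → ℂ} {x : R} (h : HN u x) (hw : HN w x) : HN (fun y => u y - w y) x := by
  filter_upwards [h, hw] with y hy1 hy2
  exact hy1.sub hy2

omit [IsManifold 𝓘(ℂ) 1 R] in
theorem HN.mul {u w : R → ℂ} {x : R} (h : HN u x) (hw : HN w x) : HN (fun y => u y * w y) x := by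
  filter_upwards [h, hw] with y hy1 hy2
  exact hy1.mul hy2

omit [IsManifold 𝓘(ℂ) 1 R] in
theorem HN.continuousAt {u : R → ℂ} {x : R} (h : HN u x) : ContinuousAt u x :=
  h.self_of_nhds.continuousAt

omit [IsManifold 𝓘(ℂ) 1 R] in
/-- Composition with a function of one variable. -/
theorem HN.comp_left {u : R → ℂ} {x : R} (h : HN u x) {w : ℂ → ℂ}
    (hw : ∀ᶠ z in 𝓝 (u x), DifferentiableAt ℂ w z) : HN (fun y => w (u y)) x := by
  filter_upwards [h, h.continuousAt.eventually hw] with y hy1 hy2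
  exact (mdifferentiableAt_iff_differentiableAt.2 hy2).comp y hy1

omit [IsManifold 𝓘(ℂ) 1 R] in
/-- Composition with a holomorphic self-map. -/
theorem HN.comp_right {u : R → ℂ} {τ : R → R} {x : R} (h : HN u (τ x)) (hc : Continuous τ)
    (hτ : MDifferentiable 𝓘(ℂ) 𝓘(ℂ) τ) : HN (fun y => u (τ y)) x := by
  filter_upwards [hc.continuousAt.eventually h] with y hy
  exact MDifferentiableAt.comp y hy (hτ y)

end Surface

end Pool.Agent.R788.HE
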