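import Pool.Agent.R788.HE.Double

/-!
# Uniqueness of the hyperelliptic involution
-/

set_option autoImplicit false

open Topology Filter
open scoped Manifold OnePoint

namespace Pool.Agent.R788.HE

universe v

/-- The function `1 / (w - v)` on the sphere. -/
noncomputable def gv (v : ℂ) (w : OnePoint ℂ) : ℂ := w.elim 0 fun z => (z - v)⁻¹

theorem gv_infty (v : ℂ) : gv v ∞ = 0 := rfl

theorem gv_coe (v z : ℂ) : gv v (z : OnePoint ℂ) = (z - v)⁻¹ := rfl

theorem gv_inj {v : ℂ} {w w' : OnePoint ℂ} (hw : w ≠ (v : OnePoint ℂ))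
    (hw' : w' ≠ (v : OnePoint ℂ)) (h : gv v w = gv v w') : w = w' := by
  induction w using OnePoint.rec with
  | infty =>
    induction w' using OnePoint.rec with
    | infty => rfl
    | coe z' =>
      rw [gv_infty, gv_coe] at h
      have h1 : z' - v = 0 := inv_eq_zero.1 h.symm
      exact absurd (by rw [sub_eq_zero.1 h1]) hw'
  | coe z =>
    induction w' using OnePoint.rec with
    | infty =>
      rw [gv_infty, gv_coe] at h
      have h1 : z - v = 0 := inv_eq_zero.1 h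
      exact absurd (by rw [sub_eq_zero.1 h1]) hw
    | coe z' =>
      rw [gv_coe, gv_coe] at h
      have h1 : z - v = z' - v := inv_injective h
      have h2 : z = z' := by linear_combination h1
      rw [h2]

theorem norm_gv_le {v : ℂ} {r : ℝ} (hr : 0 < r) {w : OnePoint ℂ}
    (hw : w ∉ (fun z : ℂ => (z : OnePoint ℂ)) '' Metric.closedBall v r) : ‖gv v w‖ ≤ r⁻¹ := by
  induction w using OnePoint.rec with
  | infty =>
    rw [gv_infty, norm_zero]
    positivity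
  | coe z =>
    rw [gv_coe, norm_inv]
    have h1 : r < ‖z - v‖ := by
      by_contra hc
      push Not at hc
      exact hw ⟨z, by rwa [Metric.mem_closedBall, dist_eq_norm], rfl⟩
    exact inv_anti₀ hr h1.le

section Surface

variable {R : Type v} [TopologicalSpace R] [ChartedSpace ℂ R]

theorem IsHolo.hn_gv {f : R → OnePoint ℂ} (hf : IsHolo f) {v : ℂ} {x : R}
    (hx : f x ≠ (v : OnePoint ℂ)) : HN (fun y => gv v (f y)) x := by
  by_cases hinf : f x = ∞
  · have h0 : f x ≠ pole ∞ := by rw [hinf]; exact ne_pole _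
    have h1 : HN (fun y => (toC (f y))⁻¹) x := hf.hn (q := ∞) h0
    have h2 : HN (fun y => (fun w : ℂ => w / (1 - v * w)) ((toC (f y))⁻¹)) x := by
      refine h1.comp_left (w := fun w : ℂ => w / (1 - v * w)) ?_
      have h3 : (toC (f x))⁻¹ = 0 := by rw [hinf, toC_infty, inv_zero]
      rw [h3]
      have h4 : ∀ᶠ z : ℂ in 𝓝 0, 1 - v * z ≠ 0 := by
        have h5 : ContinuousAt (fun z : ℂ => 1 - v * z) 0 := by fun_prop
        refine h5.eventually_ne ?_
        rw [mul_zero, sub_zero]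
        exact one_ne_zero
      filter_upwards [h4] with z hz
      exact differentiableAt_id.div (by fun_prop) hz
    refine h2.congr ?_
    filter_upwards [hf.cont.continuousAt.eventually (ev_ne _ _ h0)] with y hy
    generalize f y = w at hy
    induction w using OnePoint.rec with
    | infty => rw [gv_infty, toC_infty, inv_zero, zero_div]
    | coe z =>
      have hz : z ≠ 0 := fun h => hy (by rw [h]; rfl)
      rw [gv_coe, toC_coe]
      have h5 : 1 - v * z⁻¹ = (z - v) * z⁻¹ := by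
        rw [sub_mul, mul_inv_cancel₀ hz]
      rw [h5, div_eq_mul_inv, mul_inv, inv_inv, mul_comm, mul_assoc, mul_inv_cancel₀ hz, mul_one]
  · have h0 : f x ≠ pole ((0 : ℂ) : OnePoint ℂ) := hinf
    have h1 : HN (fun y => toC (f y)) x := by
      have h2 := hf.hn h0
      refine h2.congr (Eventually.of_forall fun y => ?_)
      change toC (f y) = toC (f y) - 0
      rw [sub_zero]
    have h2 : HN (fun y => (fun w : ℂ => (w - v)⁻¹) (toC (f y))) x := by
      refine h1.comp_left (w := fun w : ℂ => (w - v)⁻¹) ?_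
      have h3 : toC (f x) ≠ v := by
        intro h
        apply hx
        rw [← h]
        generalize f x = w at hinf
        induction w using OnePoint.rec with
        | infty => exact absurd rfl hinf
        | coe z => rfl
      have h4 : ∀ᶠ z : ℂ in 𝓝 (toC (f x)), z ≠ v := isOpen_ne.mem_nhds h3
      filter_upwards [h4] with z hz
      exact DifferentiableAt.inv (by fun_prop) (sub_ne_zero.2 hz)
    refine h2.congr ?_
    filter_upwards [hf.cont.continuousAt.eventually (ev_ne _ _ hinf)] with y hy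
    generalize f y = w at hy
    induction w using OnePoint.rec with
    | infty => exact absurd rfl hy
    | coe z => rfl

variable [IsManifold 𝓘(ℂ) 1 R] [T2Space R] [PreconnectedSpace R]

theorem comm {τ : R ≃ₜ R} {f₁ f₂ : R → OnePoint ℂ} {B₁ B₂ : Set (OnePoint ℂ)}
    (h₁ : IsDoubleCover f₁ B₁) (haut : IsAut τ) (hne : τ ≠ Homeomorph.refl R)
    (hdeck : ∀ x, f₁ (τ x) = f₁ x) {q : OnePoint ℂ} (hq : q ∈ derivedSet B₁)
    (hiso : ∀ᶠ w in 𝓝 q, w ∈ derivedSet B₁ → w = q) (h₂ : IsDoubleCover f₂ B₂)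
    (hne₂ : ((derivedSet B₂)ᶜ).Nonempty) (x : R) : f₂ (τ x) = f₂ x := by
  classical
  -- a closed disc in the image of the second map
  have hopen : IsOpen (derivedSet B₂)ᶜ := (isClosed_derivedSet B₂).isOpen_compl
  obtain ⟨v, hv⟩ := OnePoint.denseRange_coe.exists_mem_open hopen hne₂
  obtain ⟨r, hr, hball⟩ : ∃ r > 0, Metric.closedBall v r ⊆
      (fun z : ℂ => (z : OnePoint ℂ)) ⁻¹' (derivedSet B₂)ᶜ :=
    Metric.nhds_basis_closedBall.mem_iff.1
      ((hopen.preimage OnePoint.continuous_coe).mem_nhds hv)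
  obtain ⟨V, hV⟩ : ∃ V, V = (fun z : ℂ => (z : OnePoint ℂ)) '' Metric.closedBall v r := ⟨_, rfl⟩
  have hVc : IsCompact V := by
    rw [hV]
    exact (isCompact_closedBall v r).image OnePoint.continuous_coe
  have hVs : V ⊆ (derivedSet B₂)ᶜ := by
    rw [hV]
    rintro _ ⟨z, hz, rfl⟩
    exact hball hz
  have hvV : (v : OnePoint ℂ) ∈ V := by
    rw [hV]
    exact ⟨v, Metric.mem_closedBall_self hr.le, rfl⟩
  obtain ⟨C, hC⟩ : ∃ C, C = f₂ ⁻¹' V := ⟨_, rfl⟩
  have hCc : IsCompact C := by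
    rw [hC]
    exact h₂.proper V hVc hVs
  have hCf : IsClosed (f₁ '' C) := (hCc.image h₁.holo.cont).isClosed
  have hqC : q ∉ f₁ '' C := by
    rintro ⟨y, -, hy⟩
    exact h₁.mem y (by rw [hy]; exact hq)
  have hO : ∀ᶠ t in 𝓝 (0 : ℂ), (par q t ∈ derivedSet B₁ → par q t = q) ∧ par q t ∉ f₁ '' C :=
    (tendsto_par q).eventually (hiso.and (hCf.isOpen_compl.mem_nhds hqC))
  obtain ⟨ε, hε, hO'⟩ := Metric.eventually_nhds_iff_ball.1 hO
  have hpar : ∀ t, par q t = q → t = 0 := by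
    intro t ht
    rw [← crd_par q t, ht, crd_self]
  have hmem : ∀ t ∈ Metric.ball (0 : ℂ) ε, t ≠ 0 → par q t ∉ derivedSet B₁ := by
    intro t ht ht0 h
    exact ht0 (hpar t ((hO' t ht).1 h))
  have hfib : ∀ t ∈ Metric.ball (0 : ℂ) ε, ∀ y, f₁ y = par q t → f₂ y ∉ V := by
    intro t ht y hy h
    exact (hO' t ht).2 ⟨y, by rw [hC]; exact h, hy⟩
  -- the function on the base
  obtain ⟨k, hk⟩ : ∃ k : R → ℂ, k = fun y =>
      (gv v (f₂ y) - gv v (f₂ (τ y))) * (gv v (f₂ y) - gv v (f₂ (τ y))) := ⟨_, rfl⟩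
  have hinv : ∀ y, τ (τ y) = y := h₁.invol haut hne hdeck
  have hkτ : ∀ y, k (τ y) = k y := by
    intro y
    rw [hk]
    change (gv v (f₂ (τ y)) - gv v (f₂ (τ (τ y)))) * (gv v (f₂ (τ y)) - gv v (f₂ (τ (τ y)))) = _
    rw [hinv]
    ring
  obtain ⟨D, hD⟩ : ∃ D : ℂ → ℂ, D = fun t =>
      if h : ∃ y, f₁ y = par q t then k h.choose else 0 := ⟨_, rfl⟩
  have hDk : ∀ y, f₁ y ≠ pole q → D (crd q (f₁ y)) = k y := by
    intro y hy
    rw [hD]
    change (if h : ∃ z, f₁ z = par q (crd q (f₁ y)) then k h.choose else 0) = k y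
    have hex : ∃ z, f₁ z = par q (crd q (f₁ y)) := ⟨y, (par_crd hy).symm⟩
    rw [dif_pos hex]
    have h3 : f₁ hex.choose = f₁ y := hex.choose_spec.trans (par_crd hy)
    rcases h₁.swap haut hne hdeck h3 with h4 | h4
    · rw [h4]
    · rw [h4, hkτ]
  have hDan : ∀ t ∈ Metric.ball (0 : ℂ) ε, t ≠ 0 → AnalyticAt ℂ D t := by
    intro t ht ht0
    obtain ⟨y, hy⟩ := h₁.exists_eq (hmem t ht ht0)
    have hyp : f₁ y ≠ pole q := by rw [hy]; exact par_ne_pole q t
    have h3 : f₂ y ≠ (v : OnePoint ℂ) := fun h => hfib t ht y hy (by rw [h]; exact hvV)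
    have h4 : f₂ (τ y) ≠ (v : OnePoint ℂ) := fun h =>
      hfib t ht (τ y) (by rw [hdeck, hy]) (by rw [h]; exact hvV)
    have h5 : HN (fun z => gv v (f₂ z) - gv v (f₂ (τ z))) y :=
      (h₂.holo.hn_gv h3).sub (HN.comp_right (h₂.holo.hn_gv h4) τ.continuous haut.1)
    have h6 : HN k y := by
      rw [hk]
      exact h5.mul h5
    have h7 := (h₁.holo.hn hyp).descend (D := D) h6
      (not_ev_const_crd h₁.holo hyp (h₁.finite (h₁.mem y))) (by
        filter_upwards [h₁.holo.cont.continuousAt.eventually (ev_ne _ _ hyp)] with z hz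
        exact hDk z hz)
    rwa [hy, crd_par] at h7
  have hDb : ∀ t ∈ Metric.ball (0 : ℂ) ε, t ≠ 0 → ‖D t‖ ≤ (2 * r⁻¹) * (2 * r⁻¹) := by
    intro t ht ht0
    obtain ⟨y, hy⟩ := h₁.exists_eq (hmem t ht ht0)
    have hyp : f₁ y ≠ pole q := by rw [hy]; exact par_ne_pole q t
    have h3 := hDk y hyp
    rw [hy, crd_par] at h3
    rw [h3, hk]
    have h4 : ‖gv v (f₂ y)‖ ≤ r⁻¹ := norm_gv_le hr (by rw [← hV]; exact hfib t ht y hy)
    have h5 : ‖gv v (f₂ (τ y))‖ ≤ r⁻¹ :=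
      norm_gv_le hr (by rw [← hV]; exact hfib t ht (τ y) (by rw [hdeck, hy]))
    have h6 : ‖gv v (f₂ y) - gv v (f₂ (τ y))‖ ≤ 2 * r⁻¹ :=
      (norm_sub_le _ _).trans (by linarith)
    change ‖(gv v (f₂ y) - gv v (f₂ (τ y))) * (gv v (f₂ y) - gv v (f₂ (τ y)))‖ ≤ _
    rw [norm_mul]
    exact mul_le_mul h6 h6 (norm_nonneg _) (by positivity)
  -- zeros accumulate
  have hfreq : ∃ᶠ t in 𝓝[≠] (0 : ℂ), D t = 0 := by
    intro hcon
    rw [eventually_nhdsWithin_iff] at hcon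
    have h3 : Tendsto (crd q) (𝓝 q) (𝓝 0) := by
      have := continuousAt_crd (ne_pole q)
      rwa [ContinuousAt, crd_self] at this
    have h4 := h3.eventually hcon
    have h5 : ∃ᶠ y in 𝓝 q, y ≠ q ∧ y ∈ B₁ := accPt_iff_frequently.1 hq
    obtain ⟨y, ⟨hy1, hy2⟩, hy3, hy4, hy5⟩ :=
      (h5.and_eventually (h4.and (hiso.and (ev_ne _ _ (ne_pole q))))).exists
    have h6 : y ∉ derivedSet B₁ := fun h => hy1 (hy4 h)
    obtain ⟨z, hz⟩ := h₁.exists_eq h6
    have h7 : crd q y ≠ 0 := by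
      intro h
      apply hy1
      rw [← par_crd hy5, h, par_zero]
    apply hy3 h7
    have h8 := hDk z (by rw [hz]; exact hy5)
    rw [hz] at h8
    rw [h8, hk]
    have h9 : τ z = z := h₁.fixed hdeck (by rw [hz]; exact hy2)
    change (gv v (f₂ z) - gv v (f₂ (τ z))) * (gv v (f₂ z) - gv v (f₂ (τ z))) = 0
    rw [h9, sub_self, mul_zero]
  -- the function on the base vanishes near zero
  have hball0 : Metric.ball (0 : ℂ) ε ∈ 𝓝 (0 : ℂ) := Metric.ball_mem_nhds _ hε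
  have hext := Complex.differentiableOn_update_limUnder_of_bddAbove (f := D) hball0
    (fun t ht => (hDan t ht.1 ht.2).differentiableAt.differentiableWithinAt)
    ⟨(2 * r⁻¹) * (2 * r⁻¹), by
      rintro _ ⟨t, ht, rfl⟩
      exact hDb t ht.1 ht.2⟩
  obtain ⟨E, hE⟩ : ∃ E, E = Function.update D 0 ((𝓝[≠] (0 : ℂ)).limUnder D) := ⟨_, rfl⟩
  rw [← hE] at hext
  have hED : ∀ t, t ≠ 0 → E t = D t := by
    intro t ht
    rw [hE, Function.update_of_ne ht]
  have hEan : AnalyticAt ℂ E 0 := hext.analyticAt hball0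
  have hE0 : ∀ᶠ t in 𝓝 (0 : ℂ), E t = 0 := by
    rw [← hEan.frequently_zero_iff_eventually_zero]
    refine (hfreq.and_eventually eventually_mem_nhdsWithin).mono fun t ht => ?_
    rw [hED t ht.2]
    exact ht.1
  obtain ⟨t₀, ht₀, ht₁, ht₂⟩ : ∃ t₀ : ℂ, t₀ ≠ 0 ∧ t₀ ∈ Metric.ball (0 : ℂ) ε ∧
      ∀ᶠ t in 𝓝 t₀, E t = 0 := by
    have h3 : ∀ᶠ t in 𝓝[≠] (0 : ℂ), t ∈ Metric.ball (0 : ℂ) ε ∧ ∀ᶠ s in 𝓝 t, E s = 0 :=
      (Filter.Eventually.and hball0 hE0.eventually_nhds).filter_mono nhdsWithin_le_nhds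
    obtain ⟨t, ht1, ht2⟩ := (h3.and eventually_mem_nhdsWithin).exists
    exact ⟨t, ht2, ht1.1, ht1.2⟩
  have hD0 : ∀ᶠ t in 𝓝 t₀, D t = 0 := by
    filter_upwards [ht₂, isOpen_ne.mem_nhds ht₀] with t ht ht'
    rw [← hED t ht']
    exact ht
  -- back to the surface
  obtain ⟨x₀, hx₀⟩ := h₁.exists_eq (hmem t₀ ht₁ ht₀)
  have hyp : f₁ x₀ ≠ pole q := by rw [hx₀]; exact par_ne_pole q t₀
  have hxC : x₀ ∉ C := by
    rw [hC]
    exact hfib t₀ ht₁ x₀ hx₀
  have hτC : τ x₀ ∉ C := by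
    rw [hC]
    exact hfib t₀ ht₁ (τ x₀) (by rw [hdeck, hx₀])
  have hev : ∀ᶠ y in 𝓝 x₀, f₂ (τ y) = f₂ y := by
    have h3 : ∀ᶠ y in 𝓝 x₀, D (crd q (f₁ y)) = 0 := by
      have h4 := (h₁.holo.hn hyp).continuousAt
      rw [ContinuousAt, hx₀, crd_par] at h4
      exact h4.eventually hD0
    have h5 : ∀ᶠ y in 𝓝 x₀, y ∉ C := hCc.isClosed.isOpen_compl.mem_nhds hxC
    have h6 : ∀ᶠ y in 𝓝 x₀, τ y ∉ C :=
      τ.continuous.continuousAt.eventually (hCc.isClosed.isOpen_compl.mem_nhds hτC)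
    filter_upwards [h3, h5, h6, h₁.holo.cont.continuousAt.eventually (ev_ne _ _ hyp)] with
      y hy3 hy5 hy6 hy7
    rw [hDk y hy7, hk] at hy3
    have h8 : gv v (f₂ y) - gv v (f₂ (τ y)) = 0 := mul_self_eq_zero.1 hy3
    have h9 : ∀ z, z ∉ C → f₂ z ≠ (v : OnePoint ℂ) := by
      intro z hz h
      apply hz
      rw [hC]
      change f₂ z ∈ V
      rw [h]
      exact hvV
    exact (gv_inj (h9 y hy5) (h9 (τ y) hy6) (sub_eq_zero.1 h8)).symm
  exact (h₂.holo.comp τ.continuous haut.1).identity h₂.holo hev x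

/-- If the set of accumulation points of the branch locus of a hyperelliptic involution has an
isolated point, then the involution is the only hyperelliptic involution of the surface. -/
theorem unique_of_isolated {τ₁ τ₂ : R ≃ₜ R} {B₁ B₂ : Set (OnePoint ℂ)} (h₁ : IsHypInv τ₁ B₁)
    {q : OnePoint ℂ} (hq : q ∈ derivedSet B₁) (hiso : ∀ᶠ w in 𝓝 q, w ∈ derivedSet B₁ → w = q)
    (h₂ : IsHypInv τ₂ B₂) : τ₁ = τ₂ := by
  obtain ⟨f₁, hf₁, hd₁⟩ := h₁.deck
  obtain ⟨f₂, hf₂, hd₂⟩ := h₂.deck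
  have h := comm hf₁ h₁.aut h₁.ne_one hd₁ hq hiso hf₂ h₂.connected.nonempty
  exact hf₂.deck_unique h₁.aut h₁.ne_one h h₂.aut h₂.ne_one hd₂

end Surface

theorem exists_isolated {B : Set (OnePoint ℂ)} (hB : B.Infinite) (hfin : (derivedSet B).Finite) :
    ∃ q ∈ derivedSet B, ∀ᶠ w in 𝓝 q, w ∈ derivedSet B → w = q := by
  obtain ⟨q, hq⟩ : ∃ q, AccPt q (𝓟 B) := by
    obtain ⟨q, -, hq⟩ := hB.exists_accPt_of_subset_isCompact isCompact_univ (Set.subset_univ B)
    exact ⟨q, hq⟩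
  refine ⟨q, hq, ?_⟩
  have h1 : ((derivedSet B) \ {q})ᶜ ∈ 𝓝 q :=
    (hfin.subset Set.sdiff_subset).isClosed.isOpen_compl.mem_nhds fun h => h.2 rfl
  filter_upwards [h1] with w hw hw'
  by_contra hc
  exact hw ⟨hw', hc⟩

end Pool.Agent.R788.HE
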