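import Pool.Agent.R788.HE.Local

/-!
# The Riemann sphere and holomorphic maps to it
-/

set_option autoImplicit false

open Topology Filter
open scoped Manifold OnePoint

namespace Pool.Agent.R788.HE

/-- The coordinate of a point of the Riemann sphere, with value `0` at infinity. -/
def toC (w : OnePoint ℂ) : ℂ := w.elim 0 id

@[simp] theorem toC_infty : toC ∞ = 0 := rfl

@[simp] theorem toC_coe (z : ℂ) : toC (z : OnePoint ℂ) = z := rfl

theorem continuousAt_toC {w : OnePoint ℂ} (hw : w ≠ ∞) : ContinuousAt toC w := by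
  induction w using OnePoint.rec with
  | infty => exact absurd rfl hw
  | coe z =>
    rw [OnePoint.continuousAt_coe]
    exact continuousAt_id

theorem continuousAt_toC_inv {w : OnePoint ℂ} (hw : w ≠ ((0 : ℂ) : OnePoint ℂ)) :
    ContinuousAt (fun w => (toC w)⁻¹) w := by
  induction w using OnePoint.rec with
  | infty =>
    rw [OnePoint.continuousAt_infty']
    change Tendsto (fun z : ℂ => z⁻¹) (coclosedCompact ℂ) (𝓝 ((toC ∞)⁻¹))
    rw [toC_infty, inv_zero, coclosedCompact_eq_cocompact, ← Metric.cobounded_eq_cocompact]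
    exact tendsto_inv₀_cobounded
  | coe z =>
    have hz : z ≠ 0 := fun h => hw (by rw [h])
    rw [OnePoint.continuousAt_coe]
    exact (continuousAt_inv₀ hz : ContinuousAt (fun z : ℂ => z⁻¹) z)

/-- The coordinate centred at `q`. -/
noncomputable def crd (q w : OnePoint ℂ) : ℂ := q.elim (toC w)⁻¹ fun a => toC w - a

/-- The inverse of the coordinate centred at `q`. -/
noncomputable def par (q : OnePoint ℂ) (t : ℂ) : OnePoint ℂ :=
  open Classical in
  q.elim (if t = 0 then ∞ else ((t⁻¹ : ℂ) : OnePoint ℂ)) fun a => ((a + t : ℂ) : OnePoint ℂ)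

/-- The point not covered by the coordinate centred at `q`. -/
def pole (q : OnePoint ℂ) : OnePoint ℂ := q.elim ((0 : ℂ) : OnePoint ℂ) fun _ => ∞

theorem coe_inj {z w : ℂ} : (z : OnePoint ℂ) = (w : OnePoint ℂ) ↔ z = w :=
  ⟨fun h => by simpa using h, fun h => by rw [h]⟩

theorem ne_pole (q : OnePoint ℂ) : q ≠ pole q := by
  induction q using OnePoint.rec with
  | infty => exact OnePoint.infty_ne_coe _
  | coe z => exact OnePoint.coe_ne_infty _

theorem par_zero (q : OnePoint ℂ) : par q 0 = q := by
  induction q using OnePoint.rec with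
  | infty =>
    change (if (0 : ℂ) = 0 then ∞ else _) = _
    rw [if_pos rfl]
  | coe z =>
    change ((z + 0 : ℂ) : OnePoint ℂ) = z
    rw [add_zero]

theorem crd_par (q : OnePoint ℂ) (t : ℂ) : crd q (par q t) = t := by
  induction q using OnePoint.rec with
  | infty =>
    change (toC (if t = 0 then ∞ else ((t⁻¹ : ℂ) : OnePoint ℂ)))⁻¹ = t
    split_ifs with h
    · rw [toC_infty, h, inv_zero]
    · rw [toC_coe, inv_inv]
  | coe z =>
    change toC ((z + t : ℂ) : OnePoint ℂ) - z = t
    rw [toC_coe]
    ring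

theorem par_crd {q w : OnePoint ℂ} (hw : w ≠ pole q) : par q (crd q w) = w := by
  induction q using OnePoint.rec with
  | infty =>
    change (if (toC w)⁻¹ = 0 then ∞ else (((toC w)⁻¹⁻¹ : ℂ) : OnePoint ℂ)) = w
    induction w using OnePoint.rec with
    | infty => rw [toC_infty, inv_zero, if_pos rfl]
    | coe z =>
      have hz : z ≠ 0 := fun h => hw (by rw [h]; rfl)
      rw [toC_coe, if_neg (inv_ne_zero hz), inv_inv]
  | coe a =>
    change ((a + (toC w - a) : ℂ) : OnePoint ℂ) = w
    induction w using OnePoint.rec with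
    | infty => exact absurd rfl hw
    | coe z => rw [toC_coe, add_sub_cancel]

theorem par_ne_pole (q : OnePoint ℂ) (t : ℂ) : par q t ≠ pole q := by
  induction q using OnePoint.rec with
  | infty =>
    change (if t = 0 then ∞ else ((t⁻¹ : ℂ) : OnePoint ℂ)) ≠ ((0 : ℂ) : OnePoint ℂ)
    split_ifs with h
    · exact OnePoint.infty_ne_coe _
    · rw [Ne, coe_inj]
      exact inv_ne_zero h
  | coe z => exact OnePoint.coe_ne_infty _

theorem crd_self (q : OnePoint ℂ) : crd q q = 0 := by
  have := crd_par q 0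
  rwa [par_zero] at this

theorem continuousAt_crd {q w : OnePoint ℂ} (hw : w ≠ pole q) : ContinuousAt (crd q) w := by
  induction q using OnePoint.rec with
  | infty => exact continuousAt_toC_inv hw
  | coe z => exact (continuousAt_toC hw).sub continuousAt_const

theorem ev_ne (w p : OnePoint ℂ) (h : w ≠ p) : ∀ᶠ y in 𝓝 w, y ≠ p := isOpen_ne.mem_nhds h

theorem nhds_le_map_par (q : OnePoint ℂ) : 𝓝 q ≤ map (par q) (𝓝 0) := by
  have h1 : Tendsto (crd q) (𝓝 q) (𝓝 0) := by
    have := continuousAt_crd (ne_pole q)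
    rwa [ContinuousAt, crd_self] at this
  have h2 : map (par q ∘ crd q) (𝓝 q) = 𝓝 q := by
    have h3 : (par q ∘ crd q) =ᶠ[𝓝 q] id := by
      filter_upwards [ev_ne q _ (ne_pole q)] with y hy
      exact par_crd hy
    rw [map_congr h3, map_id]
  calc 𝓝 q = map (par q) (map (crd q) (𝓝 q)) := by rw [map_map, h2]
    _ ≤ map (par q) (𝓝 0) := map_mono h1

theorem tendsto_par (q : OnePoint ℂ) : Tendsto (par q) (𝓝 0) (𝓝 q) := by
  induction q using OnePoint.rec with
  | infty =>
    rw [← nhdsNE_sup_pure (0 : ℂ), tendsto_sup]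
    constructor
    · have h1 : Tendsto (fun t : ℂ => ((t⁻¹ : ℂ) : OnePoint ℂ)) (𝓝[≠] 0) (𝓝 ∞) := by
        refine OnePoint.tendsto_coe_infty.comp ?_
        rw [coclosedCompact_eq_cocompact, ← Metric.cobounded_eq_cocompact]
        exact tendsto_inv₀_nhdsNE_zero
      refine h1.congr' ?_
      filter_upwards [eventually_mem_nhdsWithin] with t ht
      change _ = (if t = 0 then ∞ else ((t⁻¹ : ℂ) : OnePoint ℂ))
      have ht' : t ≠ 0 := ht
      rw [if_neg ht']
    · rw [tendsto_pure_left]
      intro s hs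
      rw [par_zero]
      exact mem_of_mem_nhds hs
  | coe z =>
    change Tendsto (fun t : ℂ => ((z + t : ℂ) : OnePoint ℂ)) (𝓝 0) (𝓝 (z : OnePoint ℂ))
    have h : Continuous fun t : ℂ => ((z + t : ℂ) : OnePoint ℂ) :=
      OnePoint.continuous_coe.comp (continuous_const.add continuous_id)
    have := h.tendsto 0
    rwa [add_zero] at this

end Pool.Agent.R788.HE
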